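import Pool.Agent.Helper69.GC.Defs

/-!
# MP_97687e_co, module GRA: the coset graph of two abelian subgroups
-/

set_option autoImplicit false

namespace Pool.Agent.Helper69.GC

section

variable {F Q : Type} [Field F] [Group Q]

/-- the one-parameter subgroup as a homomorphism -/
def gra_hom (α : F → Q) (h : ∀ x y, α (x + y) = α x * α y) : Multiplicative F →* Q where
  toFun x := α x.toAdd
  map_one' := by
    have h1 : α (0 + 0) = α 0 * α 0 := h 0 0
    rw [add_zero] at h1
    exact (mul_eq_left.1 h1.symm)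
  map_mul' x y := h _ _

theorem gra_zero (α : F → Q) (h : ∀ x y, α (x + y) = α x * α y) : α 0 = 1 :=
  (gra_hom α h).map_one

theorem gra_mem (α : F → Q) (h : ∀ x y, α (x + y) = α x * α y) (g : Q) :
    g ∈ (gra_hom α h).range ↔ ∃ x, α x = g := by
  constructor
  · rintro ⟨x, hx⟩
    exact ⟨x.toAdd, hx⟩
  · rintro ⟨x, hx⟩
    exact ⟨Multiplicative.ofAdd x, hx⟩

theorem gra_inj (α : F → Q) (h : ∀ x y, α (x + y) = α x * α y)
    (h0 : ∀ x, α x = 1 → x = 0) : Function.Injective α := by
  intro x y hxy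
  have h1 : α (x - y + y) = α (x - y) * α y := h _ _
  rw [sub_add_cancel, hxy] at h1
  have h2 := h0 _ (mul_eq_right.1 h1.symm)
  exact sub_eq_zero.1 h2

theorem gra_card (α : F → Q) (h : ∀ x y, α (x + y) = α x * α y)
    (h0 : ∀ x, α x = 1 → x = 0) : Nat.card (gra_hom α h).range = Nat.card F := by
  have h1 : Function.Injective (gra_hom α h) := by
    intro x y hxy
    have := gra_inj α h h0 (show α x.toAdd = α y.toAdd from hxy)
    exact this
  have h2 := Nat.card_range_of_injective h1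
  have h3 : Nat.card (Multiplicative F) = Nat.card F := Nat.card_congr Multiplicative.toAdd
  rw [← h3, ← h2]
  rfl

variable (A B : Subgroup Q)

/-- the element `x` belongs to the coset `v` -/
def gra_In (x : Q) : (Q ⧸ A) ⊕ (Q ⧸ B) → Prop
  | .inl a => (x : Q ⧸ A) = a
  | .inr b => (x : Q ⧸ B) = b

/-- the coset graph -/
def gra_G : SimpleGraph ((Q ⧸ A) ⊕ (Q ⧸ B)) where
  Adj v w := v.isLeft ≠ w.isLeft ∧ ∃ x, gra_In A B x v ∧ gra_In A B x w
  symm := ⟨fun v w h => ⟨h.1.symm, h.2.choose, h.2.choose_spec.2, h.2.choose_spec.1⟩⟩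
  loopless := ⟨fun v h => h.1 rfl⟩

variable {A B}

theorem gra_same {x : Q} {v w : (Q ⧸ A) ⊕ (Q ⧸ B)} (h : v.isLeft = w.isLeft)
    (h1 : gra_In A B x v) (h2 : gra_In A B x w) : v = w := by
  rcases v with a | b <;> rcases w with a' | b'
  · have h1' : (x : Q ⧸ A) = a := h1
    have h2' : (x : Q ⧸ A) = a' := h2
    rw [← h1', ← h2']
  · simp at h
  · simp at h
  · have h1' : (x : Q ⧸ B) = b := h1
    have h2' : (x : Q ⧸ B) = b' := h2
    rw [← h1', ← h2']

theorem gra_uniq (hAB : ∀ g, g ∈ A → g ∈ B → g = 1) {x y : Q} {v w : (Q ⧸ A) ⊕ (Q ⧸ B)}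
    (h : v.isLeft ≠ w.isLeft)
    (h1 : gra_In A B x v) (h2 : gra_In A B x w) (h3 : gra_In A B y v) (h4 : gra_In A B y w) :
    x = y := by
  have key : x⁻¹ * y ∈ A ∧ x⁻¹ * y ∈ B := by
    rcases v with a | b <;> rcases w with a' | b'
    · simp at h
    · have h1' : (x : Q ⧸ A) = a := h1
      have h3' : (y : Q ⧸ A) = a := h3
      have h2' : (x : Q ⧸ B) = b' := h2
      have h4' : (y : Q ⧸ B) = b' := h4
      exact ⟨QuotientGroup.eq.1 (h1'.trans h3'.symm), QuotientGroup.eq.1 (h2'.trans h4'.symm)⟩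
    · have h1' : (x : Q ⧸ B) = b := h1
      have h3' : (y : Q ⧸ B) = b := h3
      have h2' : (x : Q ⧸ A) = a' := h2
      have h4' : (y : Q ⧸ A) = a' := h4
      exact ⟨QuotientGroup.eq.1 (h2'.trans h4'.symm), QuotientGroup.eq.1 (h1'.trans h3'.symm)⟩
    · simp at h
  have := hAB _ key.1 key.2
  exact (inv_mul_eq_one.1 this)

theorem gra_step {x y : Q} {v : (Q ⧸ A) ⊕ (Q ⧸ B)}
    (h1 : gra_In A B x v) (h2 : gra_In A B y v) :
    (v.isLeft = true → x⁻¹ * y ∈ A) ∧ (v.isLeft = false → x⁻¹ * y ∈ B) := by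
  rcases v with a | b
  · have h1' : (x : Q ⧸ A) = a := h1
    have h2' : (y : Q ⧸ A) = a := h2
    exact ⟨fun _ => QuotientGroup.eq.1 (h1'.trans h2'.symm), fun h => by simp at h⟩
  · have h1' : (x : Q ⧸ B) = b := h1
    have h2' : (y : Q ⧸ B) = b := h2
    exact ⟨fun h => by simp at h, fun _ => QuotientGroup.eq.1 (h1'.trans h2'.symm)⟩

end

theorem gra_deg_left {F Q : Type} [Field F] [Group Q] (α β : F → Q)
    (hα : ∀ x y, α (x + y) = α x * α y) (hβ : ∀ x y, β (x + y) = β x * β y)
    (hαβ : ∀ x y, α x = β y → x = 0 ∧ y = 0) (x : Q) :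
    ((gra_G (gra_hom α hα).range (gra_hom β hβ).range).neighborSet
      (Sum.inl (x : Q ⧸ (gra_hom α hα).range))).ncard = Nat.card F := by
  let f : F → (Q ⧸ (gra_hom α hα).range) ⊕ (Q ⧸ (gra_hom β hβ).range) :=
    fun t => Sum.inr ((x * α t : Q) : Q ⧸ (gra_hom β hβ).range)
  have hf : Function.Injective f := by
    intro s t hst
    have h1 : ((x * α s : Q) : Q ⧸ (gra_hom β hβ).range) = ((x * α t : Q) : Q ⧸ (gra_hom β hβ).range) :=
      Sum.inr_injective hst
    rw [QuotientGroup.eq] at h1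
    obtain ⟨y, hy⟩ := (gra_mem β hβ _).1 h1
    have h2 : (x * α s)⁻¹ * (x * α t) = α (t - s) := by
      have h3 : α (t - s + s) = α (t - s) * α s := hα _ _
      have h4 : α (s + (t - s)) = α s * α (t - s) := hα _ _
      have h5 : α s * α (t - s) = α t := by
        rw [← h4]
        congr 1
        ring
      rw [← h5]
      group
    rw [h2] at hy
    have h3 := (hαβ _ _ hy.symm).1
    exact (sub_eq_zero.1 h3).symm
  have h1 : (gra_G (gra_hom α hα).range (gra_hom β hβ).range).neighborSet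
      (Sum.inl (x : Q ⧸ (gra_hom α hα).range)) = Set.range f := by
    ext w
    constructor
    · rintro ⟨hne, y, hy1, hy2⟩
      rcases w with a | b
      · simp at hne
      · have hy1' : (y : Q ⧸ (gra_hom α hα).range) = (x : Q ⧸ (gra_hom α hα).range) := hy1
        have hy2' : (y : Q ⧸ (gra_hom β hβ).range) = b := hy2
        obtain ⟨t, ht⟩ := (gra_mem α hα _).1 (QuotientGroup.eq.1 hy1'.symm)
        refine ⟨t, ?_⟩
        show Sum.inr ((x * α t : Q) : Q ⧸ (gra_hom β hβ).range) = Sum.inr b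
        rw [ht, ← hy2', mul_inv_cancel_left]
    · rintro ⟨t, rfl⟩
      refine ⟨by simp [f], x * α t, ?_, rfl⟩
      show ((x * α t : Q) : Q ⧸ (gra_hom α hα).range) = (x : Q ⧸ (gra_hom α hα).range)
      rw [eq_comm, QuotientGroup.eq, gra_mem]
      exact ⟨t, by group⟩
  rw [h1, ← Set.image_univ, Set.ncard_image_of_injective _ hf, Set.ncard_univ]

theorem gra_deg_right {F Q : Type} [Field F] [Group Q] (α β : F → Q)
    (hα : ∀ x y, α (x + y) = α x * α y) (hβ : ∀ x y, β (x + y) = β x * β y)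
    (hαβ : ∀ x y, α x = β y → x = 0 ∧ y = 0) (x : Q) :
    ((gra_G (gra_hom α hα).range (gra_hom β hβ).range).neighborSet
      (Sum.inr (x : Q ⧸ (gra_hom β hβ).range))).ncard = Nat.card F := by
  let f : F → (Q ⧸ (gra_hom α hα).range) ⊕ (Q ⧸ (gra_hom β hβ).range) :=
    fun t => Sum.inl ((x * β t : Q) : Q ⧸ (gra_hom α hα).range)
  have hf : Function.Injective f := by
    intro s t hst
    have h1 : ((x * β s : Q) : Q ⧸ (gra_hom α hα).range) = ((x * β t : Q) : Q ⧸ (gra_hom α hα).range) :=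
      Sum.inl_injective hst
    rw [QuotientGroup.eq] at h1
    obtain ⟨y, hy⟩ := (gra_mem α hα _).1 h1
    have h2 : (x * β s)⁻¹ * (x * β t) = β (t - s) := by
      have h4 : β (s + (t - s)) = β s * β (t - s) := hβ _ _
      have h5 : β s * β (t - s) = β t := by
        rw [← h4]
        congr 1
        ring
      rw [← h5]
      group
    rw [h2] at hy
    have h3 := (hαβ _ _ hy).2
    exact (sub_eq_zero.1 h3).symm
  have h1 : (gra_G (gra_hom α hα).range (gra_hom β hβ).range).neighborSet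
      (Sum.inr (x : Q ⧸ (gra_hom β hβ).range)) = Set.range f := by
    ext w
    constructor
    · rintro ⟨hne, y, hy1, hy2⟩
      rcases w with a | b
      · have hy1' : (y : Q ⧸ (gra_hom β hβ).range) = (x : Q ⧸ (gra_hom β hβ).range) := hy1
        have hy2' : (y : Q ⧸ (gra_hom α hα).range) = a := hy2
        obtain ⟨t, ht⟩ := (gra_mem β hβ _).1 (QuotientGroup.eq.1 hy1'.symm)
        refine ⟨t, ?_⟩
        show Sum.inl ((x * β t : Q) : Q ⧸ (gra_hom α hα).range) = Sum.inl a
        rw [ht, ← hy2', mul_inv_cancel_left]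
      · simp at hne
    · rintro ⟨t, rfl⟩
      refine ⟨by simp [f], x * β t, ?_, rfl⟩
      show ((x * β t : Q) : Q ⧸ (gra_hom β hβ).range) = (x : Q ⧸ (gra_hom β hβ).range)
      rw [eq_comm, QuotientGroup.eq, gra_mem]
      exact ⟨t, by group⟩
  rw [h1, ← Set.image_univ, Set.ncard_image_of_injective _ hf, Set.ncard_univ]

theorem st_GRA : ST_GRA := by
  intro F _ _ k Q _ _ α β hα hβ hαβ hgwd
  have hα0 : ∀ x, α x = 1 → x = 0 := fun x hx =>
    (hαβ x 0 (by rw [hx, gra_zero β hβ])).1
  have hβ0 : ∀ x, β x = 1 → x = 0 := fun x hx =>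
    (hαβ 0 x (by rw [hx, gra_zero α hα])).2
  let A := (gra_hom α hα).range
  let B := (gra_hom β hβ).range
  have hAB : ∀ g, g ∈ A → g ∈ B → g = 1 := by
    intro g hA hB
    obtain ⟨x, hx⟩ := (gra_mem α hα g).1 hA
    obtain ⟨y, hy⟩ := (gra_mem β hβ g).1 hB
    have := (hαβ x y (hx.trans hy.symm)).1
    rw [← hx, this, gra_zero α hα]
  refine ⟨(Q ⧸ A) ⊕ (Q ⧸ B), inferInstance, gra_G A B, ?_, ?_, ?_⟩
  · rw [Nat.card_sum, add_mul]
    have h1 := Subgroup.card_eq_card_quotient_mul_card_subgroup A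
    have h2 := Subgroup.card_eq_card_quotient_mul_card_subgroup B
    rw [show Nat.card A = Nat.card F from gra_card α hα hα0] at h1
    rw [show Nat.card B = Nat.card F from gra_card β hβ hβ0] at h2
    omega
  · rintro (a | b)
    · induction a using QuotientGroup.induction_on with
      | H x => exact gra_deg_left α β hα hβ hαβ x
    · induction b using QuotientGroup.induction_on with
      | H x => exact gra_deg_right α β hα hβ hαβ x
  · intro L v hL1 hLk hadj hne hper
    have htyp : ∀ i, (v i).isLeft ≠ (v (i + 1)).isLeft := fun i => (hadj i).1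
    have htyp2 : ∀ i, (v (i + 2)).isLeft = (v i).isLeft := by
      intro i
      have h1 := htyp i
      have h2 := htyp (i + 1)
      have h2' : (v (i + 1)).isLeft ≠ (v (i + 2)).isLeft := h2
      revert h1 h2'
      cases (v i).isLeft <;> cases (v (i + 1)).isLeft <;> cases (v (i + 2)).isLeft <;> simp
    have htyp3 : ∀ i n, (v (i + 2 * n)).isLeft = (v i).isLeft := by
      intro i n
      induction n with
      | zero => rfl
      | succ n ih =>
        rw [show i + 2 * (n + 1) = i + 2 * n + 2 by ring, htyp2, ih]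
    have hev : ∃ j, L = 2 * j := by
      rcases Nat.even_or_odd L with h | h
      · obtain ⟨j, hj⟩ := h
        exact ⟨j, by omega⟩
      · exfalso
        obtain ⟨j, hj⟩ := h
        have h1 := hper 0
        have h2 := htyp3 1 j
        have h3 : v (1 + 2 * j) = v 0 := by
          rw [← h1]
          congr 1
          omega
        rw [h3] at h2
        exact htyp 0 h2
    obtain ⟨j, hj⟩ := hev
    refine ⟨j, hj, ?_⟩
    choose e he1 he2 using fun i => (hadj i).2
    have hper' : ∀ i, e (i + L) = e i := by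
      intro i
      apply gra_uniq hAB (htyp i)
      · rw [← hper i]
        exact he1 (i + L)
      · rw [← hper (i + 1), show i + 1 + L = i + L + 1 by ring]
        exact he2 (i + L)
      · exact he1 i
      · exact he2 i
    have hs1 : ∀ i, (e i)⁻¹ * e (i + 1) ≠ 1 := by
      intro i h
      have h1 : e i = e (i + 1) := inv_mul_eq_one.1 h
      apply hne i
      apply gra_same (htyp2 i).symm (he1 i)
      rw [h1]
      exact he2 (i + 1)
    have hsA : ∀ i, (v (i + 1)).isLeft = true → ∃ t, α t = (e i)⁻¹ * e (i + 1) ∧ t ≠ 0 := by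
      intro i hi
      obtain ⟨t, ht⟩ := (gra_mem α hα _).1 ((gra_step (he2 i) (he1 (i + 1))).1 hi)
      refine ⟨t, ht, ?_⟩
      rintro rfl
      exact hs1 i (by rw [← ht, gra_zero α hα])
    have hsB : ∀ i, (v (i + 1)).isLeft = false → ∃ t, β t = (e i)⁻¹ * e (i + 1) ∧ t ≠ 0 := by
      intro i hi
      obtain ⟨t, ht⟩ := (gra_mem β hβ _).1 ((gra_step (he2 i) (he1 (i + 1))).2 hi)
      refine ⟨t, ht, ?_⟩
      rintro rfl
      exact hs1 i (by rw [← ht, gra_zero β hβ])
    have hc : ∃ c, (v (c + 1)).isLeft = true := by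
      by_cases h : (v 1).isLeft = true
      · exact ⟨0, h⟩
      · refine ⟨1, ?_⟩
        have h1 := htyp 1
        have h2 : (v 1).isLeft ≠ (v 2).isLeft := h1
        revert h h2
        show _ → _ → (v 2).isLeft = true
        cases (v 1).isLeft <;> cases (v 2).isLeft <;> simp
    obtain ⟨c, hc⟩ := hc
    have hA' : ∀ i, ∃ t, α t = (e (c + 2 * i))⁻¹ * e (c + 2 * i + 1) ∧ t ≠ 0 := by
      intro i
      apply hsA
      rw [show c + 2 * i + 1 = c + 1 + 2 * i by ring, htyp3, hc]
    have hB' : ∀ i, ∃ t, β t = (e (c + 2 * i + 1))⁻¹ * e (c + 2 * i + 2) ∧ t ≠ 0 := by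
      intro i
      apply hsB
      rw [show c + 2 * i + 1 + 1 = c + 2 + 2 * i by ring, htyp3]
      have h1 : (v (c + 1)).isLeft ≠ (v (c + 2)).isLeft := htyp (c + 1)
      rw [hc] at h1
      revert h1
      cases (v (c + 2)).isLeft <;> simp
    choose a ha1 ha2 using hA'
    choose b hb1 hb2 using hB'
    have hw : ∀ n, gwd α β a b n = (e c)⁻¹ * e (c + 2 * n) := by
      intro n
      induction n with
      | zero => simp [gwd]
      | succ n ih =>
        show gwd α β a b n * (α (a n) * β (b n)) = _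
        rw [ih, ha1, hb1, show c + 2 * (n + 1) = c + 2 * n + 2 by ring]
        group
    apply hgwd a b j (by omega) (by omega) (fun i _ => ha2 i) (fun i _ => hb2 i)
    rw [hw j, ← hj, hper', inv_mul_cancel]

end Pool.Agent.Helper69.GC
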